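import Pool.Agent.L7h38.UC.Stm2

/-!
# Project UC: CTU and CTL, from the discrete chain to continuous time
-/

set_option autoImplicit false

namespace Pool.Agent.L7h24.UC

open Finset Filter Topology Pool.Agent.L7h38.UC

lemma mt_inj {d n : ℕ} {A B : St d n} (h : mt A = mt B) : A = B := by
  apply Subtype.ext
  funext i j
  have h1 := congrFun (congrFun h i) j
  unfold Pool.Agent.L7h38.UC.mt at h1
  apply Fin.ext
  exact_mod_cast h1

open Classical in
/-- extension of a function of states to the matrices -/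
noncomputable def ext {d n : ℕ} (f : St d n → ℝ) : Mt d → ℝ := fun M =>
  if h : ∃ A : St d n, mt A = M then f h.choose else 0

lemma ext_mt {d n : ℕ} (f : St d n → ℝ) (A : St d n) : ext f (mt A) = f A := by
  have h : ∃ B : St d n, mt B = mt A := ⟨A, rfl⟩
  unfold ext
  rw [dif_pos h]
  rw [mt_inj h.choose_spec]

lemma ext_nonneg {d n : ℕ} (f : St d n → ℝ) (h : ∀ A, 0 ≤ f A) (M : Mt d) : 0 ≤ ext f M := by
  unfold ext
  split_ifs with h1
  · exact h _
  · exact le_rfl

lemma ext_abs {d n : ℕ} (f : St d n → ℝ) (x : ℝ) (hx : 0 ≤ x) (h : ∀ A, |f A| ≤ x) (M : Mt d) :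
    |ext f M| ≤ x := by
  unfold ext
  split_ifs with h1
  · exact h _
  · simpa using hx

/-- the transition matrix -/
noncomputable abbrev V {d n : ℕ} (μ : Equiv.Perm (Fin d) → ℝ) (k : ℕ) :
    Matrix (St d n) (St d n) ℝ := Matrix.of (ring μ k)

section
variable {d n k : ℕ} {μ : Equiv.Perm (Fin d) → ℝ}

lemma PN_nonneg (hPNR : S_PNR) (hμ : Pr μ) (hk : k ≤ n) (N : ℕ) (F : Mt d → ℝ)
    (hF : ∀ A, 0 ≤ F A) (c : Cf d n) (hc : Bal c) : 0 ≤ PN μ n k N F (cn c) := by
  have h1 := hPNR.2.1 d n k μ hμ hk N (fun _ => 0) F (fun c' _ => hF _) c hc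
  rwa [hPNR.2.2.2.1 d n k μ hμ hk N 0 c] at h1

lemma PN_le (hPNR : S_PNR) (hμ : Pr μ) (hk : k ≤ n) (N : ℕ) (F : Mt d → ℝ) (x : ℝ)
    (hF : ∀ A, F A ≤ x) (c : Cf d n) (hc : Bal c) : PN μ n k N F (cn c) ≤ x := by
  have h1 := hPNR.2.1 d n k μ hμ hk N F (fun _ => x) (fun c' _ => hF _) c hc
  rwa [hPNR.2.2.2.1 d n k μ hμ hk N x c] at h1

lemma V_nonneg (hREP : S_REP) (hBRI : S_BRI) (hPNR : S_PNR) (hμ : Pr μ) (hk : k ≤ n) (N : ℕ)
    (A B : St d n) : 0 ≤ (V μ k ^ N) A B := by
  obtain ⟨c, hc, hcA⟩ := (hREP d n).1 A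
  have h1 := hBRI d n k μ N (ext fun X => if X = B then 1 else 0) A
  have h2 := PN_nonneg hPNR hμ hk N (ext fun X : St d n => if X = B then (1 : ℝ) else 0)
    (ext_nonneg _ (fun X => by split_ifs <;> norm_num)) c hc
  rw [hcA, ← h1] at h2
  simpa [ext_mt] using h2

lemma V_sum (hREP : S_REP) (hBRI : S_BRI) (hPNR : S_PNR) (hμ : Pr μ) (hk : k ≤ n) (N : ℕ)
    (A : St d n) : ∑ B, (V μ k ^ N) A B = 1 := by
  obtain ⟨c, hc, hcA⟩ := (hREP d n).1 A
  have h1 := hBRI d n k μ N (fun _ => 1) A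
  rw [← hcA, hPNR.2.2.2.1 d n k μ hμ hk N 1 c] at h1
  simpa using h1

lemma V_le_one (hREP : S_REP) (hBRI : S_BRI) (hPNR : S_PNR) (hμ : Pr μ) (hk : k ≤ n) (N : ℕ)
    (A B : St d n) : (V μ k ^ N) A B ≤ 1 := by
  rw [← V_sum hREP hBRI hPNR hμ hk N A]
  exact Finset.single_le_sum (f := fun B => (V μ k ^ N) A B)
    (fun C _ => V_nonneg hREP hBRI hPNR hμ hk N A C) (Finset.mem_univ B)

lemma stat_pow {π : St d n → ℝ} (hπ : Stationary μ k π) (N : ℕ) (B : St d n) :
    ∑ A, π A * (V μ k ^ N) A B = π B := by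
  induction N generalizing B with
  | zero => simp [Matrix.one_apply]
  | succ N ih =>
    have h1 : ∀ A, (V μ k ^ (N + 1)) A B = ∑ C, (V μ k ^ N) A C * ring μ k C B := by
      intro A
      rw [pow_succ, Matrix.mul_apply]
      rfl
    simp only [h1, Finset.mul_sum]
    rw [Finset.sum_comm]
    have h2 : ∀ C, ∑ A, π A * ((V μ k ^ N) A C * ring μ k C B) = π C * ring μ k C B := by
      intro C
      rw [← ih C, Finset.sum_mul]
      exact Finset.sum_congr rfl fun A _ => by ring
    rw [Finset.sum_congr rfl fun C _ => h2 C]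
    exact hπ.2.2 B

/-- the stationary mean of a function -/
lemma stat_mean (hBRI : S_BRI) {π : St d n → ℝ} (hπ : Stationary μ k π) (N : ℕ)
    (F : Mt d → ℝ) : ∑ B, π B * F (mt B) = ∑ A, π A * PN μ n k N F (mt A) := by
  have h1 : ∀ A, π A * PN μ n k N F (mt A) = ∑ B, π A * (V μ k ^ N) A B * F (mt B) := by
    intro A
    rw [← hBRI d n k μ N F A, Finset.mul_sum]
    exact Finset.sum_congr rfl fun B _ => by ring
  rw [Finset.sum_congr rfl fun A _ => h1 A, Finset.sum_comm]
  refine Finset.sum_congr rfl fun B _ => ?_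
  rw [← Finset.sum_mul, stat_pow hπ N B]

end

/-! ### Poisson weights -/

lemma pois_nonneg {t : ℝ} (ht : 0 ≤ t) (N : ℕ) : 0 ≤ pois t N := by
  unfold pois
  positivity

lemma pois_hasSum {t : ℝ} (ht : 0 ≤ t) : HasSum (pois t) 1 :=
  ProbabilityTheory.hasSum_one_poissonMeasure (⟨t, ht⟩ : NNReal)

lemma pois_summable {t : ℝ} (ht : 0 ≤ t) {g : ℕ → ℝ} (x : ℝ) (hg : ∀ N, |g N| ≤ x) :
    Summable fun N => pois t N * g N := by
  refine Summable.of_norm_bounded ((pois_hasSum ht).summable.mul_right x) fun N => ?_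
  rw [Real.norm_eq_abs, abs_mul, abs_of_nonneg (pois_nonneg ht N)]
  exact mul_le_mul_of_nonneg_left (hg N) (pois_nonneg ht N)

lemma pois_part {t : ℝ} (x : ℝ) (M : ℕ) :
    HasSum (fun N => pois t N * (if N < M then x else 0)) (x * ∑ N ∈ range M, pois t N) := by
  have h1 : HasSum (fun N => pois t N * (if N < M then x else 0))
      (∑ N ∈ range M, pois t N * (if N < M then x else 0)) :=
    hasSum_sum_of_ne_finset_zero fun N hN => by
      rw [Finset.mem_range] at hN
      rw [if_neg hN, mul_zero]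
  convert h1 using 1
  rw [Finset.mul_sum]
  refine Finset.sum_congr rfl fun N hN => ?_
  rw [if_pos (Finset.mem_range.1 hN)]
  ring

/-- an upper bound for a Poisson mean -/
lemma tsum_bound {t : ℝ} (ht : 0 ≤ t) {g : ℕ → ℝ} (x : ℝ) (hg : ∀ N, |g N| ≤ x) (y z : ℝ) (M : ℕ)
    (h : ∀ N, g N ≤ y + if N < M then z else 0) :
    ∑' N, pois t N * g N ≤ y + z * ∑ N ∈ range M, pois t N := by
  have h1 : HasSum (fun N => pois t N * (y + if N < M then z else 0))
      (y + z * ∑ N ∈ range M, pois t N) := by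
    have h2 := ((pois_hasSum ht).mul_right y).add (pois_part (t := t) z M)
    rw [one_mul] at h2
    refine h2.congr_fun ?_ |> fun h3 => h3
    intro N
    ring
  exact hasSum_le (fun N => mul_le_mul_of_nonneg_left (h N) (pois_nonneg ht N))
    (pois_summable ht x hg).hasSum h1

section
variable {d n k : ℕ} {μ : Equiv.Perm (Fin d) → ℝ}

/-- the mean of a function under the law at time `t` -/
lemma law_mean (hREP : S_REP) (hBRI : S_BRI) (hPNR : S_PNR) (hμ : Pr μ) (hk : k ≤ n) {t : ℝ}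
    (ht : 0 ≤ t) (A : St d n) (F : Mt d → ℝ) :
    ∑ B, law μ k t A B * F (mt B) = ∑' N, pois t N * PN μ n k N F (mt A) := by
  have hs : ∀ B : St d n, Summable fun N => pois t N * (V μ k ^ N) A B := by
    intro B
    refine pois_summable ht 1 fun N => ?_
    rw [abs_of_nonneg (V_nonneg hREP hBRI hPNR hμ hk N A B)]
    exact V_le_one hREP hBRI hPNR hμ hk N A B
  have h1 : ∀ B, HasSum (fun N => pois t N * (V μ k ^ N) A B * F (mt B))
      (law μ k t A B * F (mt B)) := fun B => (hs B).hasSum.mul_right _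
  have h2 := hasSum_sum (s := Finset.univ) fun B _ => h1 B
  rw [← h2.tsum_eq]
  refine tsum_congr fun N => ?_
  rw [← hBRI d n k μ N F A, Finset.mul_sum]
  exact Finset.sum_congr rfl fun B _ => by ring

end

theorem s_CTU (hREP : S_REP) (hBRI : S_BRI) (hPNR : S_PNR) : S_CTU := by
  intro d n k μ hμ hk M η hmix π hπ t ht
  have hne : Nonempty (St d n) := by
    by_contra h
    rw [not_nonempty_iff] at h
    have h1 := hπ.2.1
    rw [Finset.univ_eq_empty, Finset.sum_empty] at h1
    norm_num at h1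
  have hη : 0 ≤ η := by
    obtain ⟨A⟩ := hne
    obtain ⟨c, hc, -⟩ := (hREP d n).1 A
    have := hmix (fun _ => 0) (fun _ => by simp) c c hc hc
    simpa using this
  unfold dn
  refine ciSup_le fun A => ?_
  obtain ⟨c, hc, hcA⟩ := (hREP d n).1 A
  set s : St d n → ℝ := fun B => if 0 ≤ law μ k t A B - π B then 1 else -1 with hsdef
  have hs1 : ∀ B, |s B| ≤ 1 := by
    intro B
    simp only [hsdef]
    split_ifs <;> norm_num
  set F : Mt d → ℝ := ext s with hF
  have hF1 : ∀ X, |F X| ≤ 1 := ext_abs s 1 zero_le_one hs1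
  have habs : ∀ B, |law μ k t A B - π B| = law μ k t A B * F (mt B) - π B * F (mt B) := by
    intro B
    rw [hF, ext_mt]
    simp only [hsdef]
    split_ifs with h
    · rw [abs_of_nonneg h]; ring
    · rw [abs_of_neg (not_le.1 h)]; ring
  have h1 : ∑ B, |law μ k t A B - π B| =
      ∑' N, pois t N * (PN μ n k N F (mt A) - ∑ B, π B * F (mt B)) := by
    rw [Finset.sum_congr rfl fun B _ => habs B, Finset.sum_sub_distrib,
      law_mean hREP hBRI hPNR hμ hk ht A F]
    have h2 : Summable fun N => pois t N * PN μ n k N F (mt A) :=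
      pois_summable ht 1 fun N => hPNR.2.2.2.2.1 d n k μ hμ N F 1 hF1 (mt A)
    have h3 : HasSum (fun N => pois t N * ∑ B, π B * F (mt B)) (1 * ∑ B, π B * F (mt B)) :=
      (pois_hasSum ht).mul_right _
    rw [one_mul] at h3
    have h4 := h2.hasSum.sub h3
    rw [← h4.tsum_eq]
    refine tsum_congr fun N => ?_
    ring
  have hPNb : ∀ (N : ℕ) (X : Mt d), |PN μ n k N F X| ≤ 1 := fun N X =>
    hPNR.2.2.2.2.1 d n k μ hμ N F 1 hF1 X
  have hπF : |∑ B, π B * F (mt B)| ≤ 1 := by
    refine (Finset.abs_sum_le_sum_abs _ _).trans ?_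
    rw [← hπ.2.1]
    refine Finset.sum_le_sum fun B _ => ?_
    rw [abs_mul, abs_of_nonneg (hπ.1 B)]
    exact mul_le_of_le_one_right (hπ.1 B) (hF1 _)
  have hD : ∀ N, PN μ n k N F (mt A) - ∑ B, π B * F (mt B) =
      ∑ A', π A' * (PN μ n k N F (mt A) - PN μ n k N F (mt A')) := by
    intro N
    rw [stat_mean hBRI hπ N F]
    simp only [mul_sub]
    rw [Finset.sum_sub_distrib, ← Finset.sum_mul, hπ.2.1, one_mul]
  have hb := tsum_bound ht (g := fun N => PN μ n k N F (mt A) - ∑ B, π B * F (mt B)) 2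
    (fun N => (abs_sub _ _).trans (by linarith [hPNb N (mt A)])) η 2 M (fun N => by
      split_ifs with hN
      · have h5 := (abs_sub (PN μ n k N F (mt A)) (∑ B, π B * F (mt B)))
        have h6 := le_abs_self (PN μ n k N F (mt A) - ∑ B, π B * F (mt B))
        linarith [hPNb N (mt A)]
      · rw [hD N, add_zero]
        have h7 := hPNR.2.2.2.2.2 d n k μ hμ M N η hmix (not_lt.1 hN)
        calc ∑ A', π A' * (PN μ n k N F (mt A) - PN μ n k N F (mt A'))
            ≤ ∑ A', π A' * η := by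
              refine Finset.sum_le_sum fun A' _ => ?_
              refine mul_le_mul_of_nonneg_left ?_ (hπ.1 A')
              obtain ⟨c', hc', hcA'⟩ := (hREP d n).1 A'
              have h8 := h7 F hF1 c c' hc hc'
              rw [hcA, hcA'] at h8
              exact (le_abs_self _).trans h8
          _ = η := by rw [← Finset.sum_mul, hπ.2.1, one_mul])
  rw [h1]
  linarith

theorem s_CTL (hREP : S_REP) (hBRI : S_BRI) (hPNR : S_PNR) : S_CTL := by
  intro d n k μ hμ hk M M' a b F c hc hF hM hM' π hπ t ht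
  obtain ⟨A, hA⟩ := (hREP d n).2 c hc
  -- the value at `A`
  have h0 : (1 / 2) * ∑ B, |law μ k t A B - π B| ≤ dn μ k π t := by
    unfold dn
    exact le_ciSup (f := fun A : St d n => (1 / 2) * ∑ B, |law μ k t A B - π B|)
      (Set.finite_range _).bddAbove A
  -- the law has mass one
  have hF1 : ∀ X, |F X| ≤ 1 := fun X => by
    rw [abs_of_nonneg (hF X).1]; exact (hF X).2
  have hmass : ∑ B, law μ k t A B = 1 := by
    have h1 := law_mean hREP hBRI hPNR hμ hk ht A (fun _ => 1)
    simp only [mul_one] at h1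
    rw [h1]
    have h2 : ∀ N, PN μ n k N (fun _ => 1) (mt A) = 1 := by
      intro N
      rw [hA]
      exact hPNR.2.2.2.1 d n k μ hμ hk N 1 c
    simp only [h2, mul_one]
    exact (pois_hasSum ht).tsum_eq
  -- the mean under `π`
  have hpi : 1 - b ≤ ∑ B, π B * F (mt B) := by
    rw [stat_mean hBRI hπ M' F]
    calc 1 - b = ∑ A', π A' * (1 - b) := by rw [← Finset.sum_mul, hπ.2.1, one_mul]
      _ ≤ _ := by
        refine Finset.sum_le_sum fun A' _ => mul_le_mul_of_nonneg_left ?_ (hπ.1 A')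
        obtain ⟨c', hc', hcA'⟩ := (hREP d n).1 A'
        rw [← hcA']
        exact hM' c' hc'
  -- the mean under the law
  have ha : 0 ≤ a := (PN_nonneg hPNR hμ hk 0 F (fun X => (hF X).1) c hc).trans (hM 0 (Nat.zero_le _))
  have hlaw : ∑ B, law μ k t A B * F (mt B) ≤ (a + 1) + (-1) * ∑ N ∈ range (M + 1), pois t N := by
    rw [law_mean hREP hBRI hPNR hμ hk ht A F, hA]
    refine tsum_bound ht 1 (fun N => hPNR.2.2.2.2.1 d n k μ hμ N F 1 hF1 (cn c)) (a + 1) (-1) (M + 1)
      fun N => ?_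
    split_ifs with hN
    · linarith [hM N (Nat.lt_succ_iff.1 hN)]
    · linarith [PN_le hPNR hμ hk N F 1 (fun X => (hF X).2) c hc]
  -- the total variation
  have htv : ∑ B, π B * F (mt B) - ∑ B, law μ k t A B * F (mt B) ≤
      (1 / 2) * ∑ B, |law μ k t A B - π B| := by
    have h1 : ∑ B, π B * F (mt B) - ∑ B, law μ k t A B * F (mt B) =
        ∑ B, (π B - law μ k t A B) * (F (mt B) - 1 / 2) := by
      have h2 : ∀ B, (π B - law μ k t A B) * (F (mt B) - 1 / 2) =
          π B * F (mt B) - law μ k t A B * F (mt B) - (1 / 2) * π B + (1 / 2) * law μ k t A B := by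
        intro B; ring
      rw [Finset.sum_congr rfl fun B _ => h2 B, Finset.sum_add_distrib, Finset.sum_sub_distrib,
        Finset.sum_sub_distrib, ← Finset.mul_sum, ← Finset.mul_sum, hπ.2.1, hmass]
      ring
    rw [h1, Finset.mul_sum]
    refine Finset.sum_le_sum fun B _ => ?_
    refine (le_abs_self _).trans ?_
    rw [abs_mul, abs_sub_comm (π B), mul_comm]
    refine mul_le_mul_of_nonneg_right ?_ (abs_nonneg _)
    rw [abs_le]
    constructor <;> linarith [(hF (mt B)).1, (hF (mt B)).2]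
  linarith

end Pool.Agent.L7h24.UC
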