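import Pool.Agent.L7h38.UC.Stm2

/-!
# Project UC: ITR, iteration of the mixing bound
-/

set_option autoImplicit false

namespace Pool.Agent.L7h24.UC

open Finset Filter Topology Pool.Agent.L7h38.UC

/-- `PN` is homogeneous -/
lemma PN_smul (hPNR : S_PNR) {d n k : ℕ} (μ : Equiv.Perm (Fin d) → ℝ) (N : ℕ) (x : ℝ)
    (F : Mt d → ℝ) (A : Mt d) :
    PN μ n k N (fun B => x * F B) A = x * PN μ n k N F A := by
  have h := hPNR.2.2.1 d n k μ N F F x 0 A
  simpa using h

/-- `PN` on functions that agree on balanced configurations -/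
lemma PN_congr (hPNR : S_PNR) {d n k : ℕ} {μ : Equiv.Perm (Fin d) → ℝ} (hμ : Pr μ) (hk : k ≤ n)
    (N : ℕ) (F G : Mt d → ℝ) (h : ∀ c : Cf d n, Bal c → F (cn c) = G (cn c)) (c : Cf d n)
    (hc : Bal c) : PN μ n k N F (cn c) = PN μ n k N G (cn c) :=
  le_antisymm (hPNR.2.1 d n k μ hμ hk N F G (fun c' h' => (h c' h').le) c hc)
    (hPNR.2.1 d n k μ hμ hk N G F (fun c' h' => (h c' h').ge) c hc)

/-- a function of small oscillation is near a constant -/
lemma exists_mid {ι : Type} [Finite ι] (P : ι → Prop) (g : ι → ℝ) (x : ℝ)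
    (h : ∀ i j, P i → P j → |g i - g j| ≤ 2 * x) : ∃ m : ℝ, ∀ i, P i → |g i - m| ≤ x := by
  classical
  by_cases hne : ∃ i, P i
  · obtain ⟨i0, hi0⟩ := hne
    have hfin : (Set.range fun i : {i // P i} => g i).Finite := Set.finite_range _
    haveI : Nonempty {i // P i} := ⟨⟨i0, hi0⟩⟩
    obtain ⟨a, ha⟩ := Finite.exists_max fun i : {i // P i} => g i
    obtain ⟨b, hb⟩ := Finite.exists_min fun i : {i // P i} => g i
    refine ⟨(g a + g b) / 2, fun i hi => ?_⟩
    have h1 := ha ⟨i, hi⟩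
    have h2 := hb ⟨i, hi⟩
    have h3 := (le_abs_self _).trans (h a b a.2 b.2)
    simp only at h1 h2
    rw [abs_le]
    constructor <;> linarith
  · push Not at hne
    exact ⟨0, fun i hi => absurd hi (hne i)⟩

theorem s_ITR (hPNR : S_PNR) : S_ITR := by
  classical
  intro d n k μ hμ hk M ρ hρ hmix N
  induction N with
  | zero =>
    intro F hF c c' _ _
    have h1 := hPNR.2.2.2.2.1 d n k μ hμ (M * 0) F 1 hF (cn c)
    have h2 := hPNR.2.2.2.2.1 d n k μ hμ (M * 0) F 1 hF (cn c')
    rw [abs_le] at h1 h2 ⊢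
    constructor <;> linarith [h1.1, h1.2, h2.1, h2.2]
  | succ N ih =>
    intro F hF c c' hc hc'
    set G : Mt d → ℝ := PN μ n k (M * N) F with hG
    have hsplit : ∀ A : Mt d, PN μ n k (M * (N + 1)) F A = PN μ n k M G A := by
      intro A
      rw [show M * (N + 1) = M + M * N by ring]
      exact hPNR.1 d n k μ M (M * N) F A
    obtain ⟨m, hm⟩ := exists_mid (fun c : Cf d n => Bal c) (fun c => G (cn c)) (ρ ^ N)
      (fun c1 c2 h1 h2 => ih F hF c1 c2 h1 h2)
    rw [hsplit, hsplit]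
    -- the corrected function
    set G' : Mt d → ℝ := fun A => if ∃ c1 : Cf d n, Bal c1 ∧ cn c1 = A then (G A - m) / ρ ^ N else 0
      with hG'
    rcases (pow_nonneg hρ N).eq_or_lt with h0 | h0
    · -- `G` is constant
      have h1 : ∀ c1 : Cf d n, Bal c1 → G (cn c1) = m := by
        intro c1 hc1
        have h2 := hm c1 hc1
        rw [← h0] at h2
        have h3 := abs_nonpos_iff.1 h2
        linarith
      have h4 : ∀ c1 : Cf d n, Bal c1 → PN μ n k M G (cn c1) = m := by
        intro c1 hc1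
        rw [PN_congr hPNR hμ hk M G (fun _ => m) h1 c1 hc1]
        exact hPNR.2.2.2.1 d n k μ hμ hk M m c1
      rw [h4 c hc, h4 c' hc', sub_self, abs_zero]
      positivity
    · have hG'1 : ∀ A, |G' A| ≤ 1 := by
        intro A
        simp only [hG']
        split_ifs with h1
        · obtain ⟨c1, hc1, rfl⟩ := h1
          rw [abs_div, abs_of_pos h0, div_le_one h0]
          exact hm c1 hc1
        · simp
      have h2 : ∀ c1 : Cf d n, Bal c1 →
          PN μ n k M G (cn c1) = ρ ^ N * PN μ n k M G' (cn c1) + m := by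
        intro c1 hc1
        have h3 : ∀ c2 : Cf d n, Bal c2 → G (cn c2) = ρ ^ N * G' (cn c2) + 1 * m := by
          intro c2 hc2
          have h4 : ∃ c1 : Cf d n, Bal c1 ∧ cn c1 = cn c2 := ⟨c2, hc2, rfl⟩
          simp only [hG']
          rw [if_pos h4]
          field_simp
          ring
        rw [PN_congr hPNR hμ hk M G (fun A => ρ ^ N * G' A + 1 * m) h3 c1 hc1,
          hPNR.2.2.1 d n k μ M G' (fun _ => m) (ρ ^ N) 1 (cn c1),
          hPNR.2.2.2.1 d n k μ hμ hk M m c1, one_mul]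
      rw [h2 c hc, h2 c' hc']
      have h5 := hmix G' hG'1 c c' hc hc'
      rw [show ρ ^ N * PN μ n k M G' (cn c) + m - (ρ ^ N * PN μ n k M G' (cn c') + m) =
        ρ ^ N * (PN μ n k M G' (cn c) - PN μ n k M G' (cn c')) by ring, abs_mul, abs_of_pos h0,
        pow_succ]
      calc ρ ^ N * |PN μ n k M G' (cn c) - PN μ n k M G' (cn c')| ≤ ρ ^ N * (2 * ρ) :=
            mul_le_mul_of_nonneg_left h5 h0.le
        _ = 2 * (ρ ^ N * ρ) := by ring

end Pool.Agent.L7h24.UC
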